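import Mathlib

/-!
# MP_722163_an : the partially bicyclic semigroup has the fixed point property `(F_{*s})`
-/

namespace Pool.Agent.Results.MP_722163_an.BicyclicFixedPoint

open Set Topology Filter

section defs

/-- The relations `ab = e` and `ac = e`, with `a = 0`, `b = 1`, `c = 2`. -/
inductive Rel : FreeMonoid (Fin 3) → FreeMonoid (Fin 3) → Prop
  | ab : Rel (FreeMonoid.of 0 * FreeMonoid.of 1) 1
  | ac : Rel (FreeMonoid.of 0 * FreeMonoid.of 2) 1

/-- The partially bicyclic semigroup. -/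
abbrev S2 : Type := PresentedMonoid Rel

section

variable {𝕜 : Type} [RCLike 𝕜] {E : Type} [NormedAddCommGroup E] [NormedSpace 𝕜 E]

/-- The distance of two functionals in the dual norm. -/
noncomputable def dnorm (x y : WeakDual 𝕜 E) : ℝ :=
  ‖WeakDual.toStrongDual x - WeakDual.toStrongDual y‖

/-- `C` is separable for the dual norm. -/
def NormSeparable (C : Set (WeakDual 𝕜 E)) : Prop :=
  TopologicalSpace.IsSeparable (WeakDual.toStrongDual '' C)

/-- `C` is nonempty, weak* compact, convex and norm separable. -/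
def Admissible (C : Set (WeakDual 𝕜 E)) : Prop :=
  C.Nonempty ∧ IsCompact C ∧ Convex ℝ C ∧ NormSeparable C

/-- `T` is a norm nonexpansive and weak* continuous representation of the (discrete) monoid `S`
on `C`. -/
def NonexpansiveRep {S : Type} [Monoid S] (C : Set (WeakDual 𝕜 E)) (T : S → C → C) : Prop :=
  (∀ s t x, T (s * t) x = T s (T t x)) ∧
    (∀ s x y, dnorm (T s x : WeakDual 𝕜 E) (T s y) ≤ dnorm (x : WeakDual 𝕜 E) y) ∧
    ∀ s, Continuous (T s)

end

/-- The fixed point property `(F_{*s})` of the (discrete) monoid `S`. -/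
def FixedPointProperty (S : Type) [Monoid S] : Prop :=
  ∀ (𝕜 : Type) [RCLike 𝕜] (E : Type) [NormedAddCommGroup E] [NormedSpace 𝕜 E] [CompleteSpace E]
    (C : Set (WeakDual 𝕜 E)), Admissible C →
    ∀ T : S → C → C, NonexpansiveRep C T → ∃ x : C, ∀ s, T s x = x

end defs

section minimal

variable {W : Type*} [TopologicalSpace W] [T2Space W]

lemma exists_minimal (P : Set W → Prop)
    (hP : ∀ c : Set (Set W), c.Nonempty → (∀ A ∈ c, P A) → P (⋂₀ c)) {C : Set W}
    (hC : IsCompact C) (hne : C.Nonempty) (hPC : P C) :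
    ∃ M ⊆ C, M.Nonempty ∧ IsCompact M ∧ P M ∧
      ∀ A ⊆ M, A.Nonempty → IsClosed A → P A → A = M := by
  obtain ⟨M, hMC, hM⟩ := zorn_superset_nonempty
    {A : Set W | A.Nonempty ∧ IsClosed A ∧ P A ∧ A ⊆ C} (by
      intro c hc hchain hcne
      refine ⟨⋂₀ c, ⟨?_, ?_, ?_, ?_⟩, fun s hs => sInter_subset_of_mem hs⟩
      · have : Nonempty c := hcne.to_subtype
        apply IsCompact.nonempty_sInter_of_directed_nonempty_isCompact_isClosed
        · intro A hA B hB
          rcases hchain.total hA hB with h | h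
          · exact ⟨A, hA, Subset.rfl, h⟩
          · exact ⟨B, hB, h, Subset.rfl⟩
        · exact fun A hA => (hc hA).1
        · exact fun A hA => hC.of_isClosed_subset (hc hA).2.1 (hc hA).2.2.2
        · exact fun A hA => (hc hA).2.1
      · exact isClosed_sInter fun A hA => (hc hA).2.1
      · exact hP c hcne fun A hA => (hc hA).2.2.1
      · obtain ⟨A, hA⟩ := hcne
        exact (sInter_subset_of_mem hA).trans (hc hA).2.2.2) C ⟨hne, hC.isClosed, hPC, Subset.rfl⟩
  refine ⟨M, hMC, hM.1.1, hC.of_isClosed_subset hM.1.2.1 hMC, hM.1.2.2.1, ?_⟩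
  intro A hAM hAne hAcl hPA
  exact Subset.antisymm hAM (hM.2 ⟨hAne, hAcl, hPA, hAM.trans hMC⟩ hAM)

end minimal

section abstract

variable {W V S : Type*} [TopologicalSpace W] [T2Space W] [NormedAddCommGroup V] [Monoid S]

/-- The data of an action on `C`. -/
structure Act (C : Set W) (T : S → W → W) (j : W → V) : Prop where
  map : ∀ s, ∀ x ∈ C, T s x ∈ C
  mul : ∀ s t, ∀ x ∈ C, T (s * t) x = T s (T t x)
  cont : ∀ s, ContinuousOn (T s) C
  ne : ∀ s, ∀ x ∈ C, ∀ y ∈ C, ‖j (T s x) - j (T s y)‖ ≤ ‖j x - j y‖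

def Inv (T : S → W → W) (A : Set W) : Prop := ∀ s, ∀ x ∈ A, T s x ∈ A

omit [TopologicalSpace W] [T2Space W] [Monoid S] in
lemma Inv_sInter (T : S → W → W) (c : Set (Set W)) (h : ∀ A ∈ c, Inv T A) : Inv T (⋂₀ c) :=
  fun s x hx A hA => h A hA s x (hx A hA)

omit [T2Space W] in
lemma Act.mono {C : Set W} {T : S → W → W} {j : W → V} (h : Act C T j) {A : Set W} (hA : A ⊆ C)
    (hinv : Inv T A) : Act A T j where
  map := hinv
  mul s t x hx := h.mul s t x (hA hx)
  cont s := (h.cont s).mono hA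
  ne s x hx y hy := h.ne s x (hA hx) y (hA hy)

variable {M : Set W} {T : S → W → W} {j : W → V}

/-- On a minimal set the identity acts as the identity. -/
lemma act_one (h : Act M T j) (hM : IsCompact M) (hne : M.Nonempty)
    (hmin : ∀ A ⊆ M, A.Nonempty → IsClosed A → Inv T A → A = M) : ∀ m ∈ M, T 1 m = m := by
  have h1 : T 1 '' M = M := by
    apply hmin
    · rintro _ ⟨m, hm, rfl⟩
      exact h.map 1 m hm
    · exact hne.image _
    · exact (hM.image_of_continuousOn (h.cont 1)).isClosed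
    · rintro s _ ⟨m, hm, rfl⟩
      refine ⟨T s m, h.map s m hm, ?_⟩
      rw [← h.mul _ _ _ hm, ← h.mul _ _ _ hm, one_mul, mul_one]
  intro m hm
  rw [← h1] at hm
  obtain ⟨m', hm', rfl⟩ := hm
  rw [← h.mul _ _ _ hm', one_mul]

/-- Relatively open subsets of small diameter. -/
lemma small_open (hM : IsCompact M) (hne : M.Nonempty)
    (hcl : ∀ (y : V) (r : ℝ), IsClosed {x : W | ‖j x - y‖ ≤ r})
    (hsep : TopologicalSpace.IsSeparable (j '' M)) {ε : ℝ} (hε : 0 < ε) :
    ∃ O : Set W, IsOpen O ∧ (O ∩ M).Nonempty ∧ ∀ x ∈ O ∩ M, ∀ y ∈ O ∩ M, ‖j x - j y‖ ≤ 2 * ε := by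
  obtain ⟨D, hD, hDM⟩ := hsep
  have : CompactSpace M := isCompact_iff_compactSpace.1 hM
  have : Nonempty M := hne.to_subtype
  have : Countable D := hD.to_subtype
  obtain ⟨d, hd⟩ := nonempty_interior_of_iUnion_of_closed (X := M)
    (f := fun d : D => {x : M | ‖j (x : W) - (d : V)‖ ≤ ε})
    (fun d => (hcl d ε).preimage continuous_subtype_val) (by
      rw [eq_univ_iff_forall]
      intro x
      have h1 := hDM ⟨x, x.2, rfl⟩
      obtain ⟨d, hd, hdist⟩ := Metric.mem_closure_iff.1 h1 ε hε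
      rw [mem_iUnion]
      refine ⟨⟨d, hd⟩, ?_⟩
      rw [dist_eq_norm] at hdist
      exact hdist.le)
  obtain ⟨O, hO, hOd⟩ := isOpen_induced_iff.1 (isOpen_interior (s := {x : M | ‖j (x : W) - (d : V)‖ ≤ ε}))
  have key : ∀ x ∈ O ∩ M, ‖j x - d‖ ≤ ε := by
    rintro x ⟨hxO, hxM⟩
    have h1 : (⟨x, hxM⟩ : M) ∈ Subtype.val ⁻¹' O := hxO
    rw [hOd] at h1
    exact interior_subset (s := {x : M | ‖j (x : W) - (d : V)‖ ≤ ε}) h1
  refine ⟨O, hO, ?_, ?_⟩
  · obtain ⟨x, hx⟩ := hd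
    rw [← hOd] at hx
    exact ⟨x, hx, x.2⟩
  · intro x hx y hy
    have h1 := key x hx
    have h2 := key y hy
    have h3 : ‖j x - j y‖ ≤ ‖j x - d‖ + ‖j y - d‖ := by
      have := norm_sub_le (j x - d) (j y - d)
      rwa [sub_sub_sub_cancel_right] at this
    linarith

/-- Total boundedness of the minimal set. -/
lemma net (h : Act M T j) (hM : IsCompact M) (hne : M.Nonempty)
    (hcl : ∀ (y : V) (r : ℝ), IsClosed {x : W | ‖j x - y‖ ≤ r})
    (hsep : TopologicalSpace.IsSeparable (j '' M))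
    (hmin : ∀ A ⊆ M, A.Nonempty → IsClosed A → Inv T A → A = M)
    {a : S} (hsurj : ∀ n : ℕ, ∀ m ∈ M, ∃ m' ∈ M, T (a ^ n) m' = m)
    (hpow : ∀ s : S, ∃ (r : S) (n : ℕ), r * s = a ^ n) {ε : ℝ} (hε : 0 < ε) :
    ∃ Q : Finset W, Q.Nonempty ∧ (∀ q ∈ Q, q ∈ M) ∧ ∀ m ∈ M, ∃ q ∈ Q, ‖j m - j q‖ ≤ ε := by
  classical
  obtain ⟨O, hO, ⟨z, hzO, hzM⟩, hsmall⟩ := small_open hM hne hcl hsep (half_pos hε)
  -- every orbit meets `O`
  have horb : ∀ x ∈ M, ∃ s, T s x ∈ O := by
    intro x hx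
    have h1 : closure (range fun s => T s x) = M := by
      have hsub : (range fun s => T s x) ⊆ M := by
        rintro _ ⟨s, rfl⟩
        exact h.map s x hx
      have hsub' : closure (range fun s => T s x) ⊆ M := closure_minimal hsub hM.isClosed
      apply hmin
      · exact hsub'
      · exact ⟨T 1 x, subset_closure ⟨1, rfl⟩⟩
      · exact isClosed_closure
      · intro t y hy
        have h2 : T t '' closure (range fun s => T s x) ⊆ closure (T t '' range fun s => T s x) :=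
          ((h.cont t).mono hsub').image_closure
        refine closure_mono ?_ (h2 ⟨y, hy, rfl⟩)
        rintro _ ⟨_, ⟨s, rfl⟩, rfl⟩
        exact ⟨t * s, h.mul t s x hx⟩
    rw [← h1] at hzM
    obtain ⟨_, hy, ⟨s, rfl⟩⟩ := mem_closure_iff.1 hzM O hO hzO
    exact ⟨s, hy⟩
  -- a finite subcover
  have hU : ∀ s, ∃ U : Set W, IsOpen U ∧ T s ⁻¹' O ∩ M = U ∩ M := fun s =>
    (continuousOn_iff'.1 (h.cont s)) O hO
  choose U hUo hUeq using hU
  obtain ⟨t, ht⟩ := hM.elim_finite_subcover U hUo (by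
    intro x hx
    obtain ⟨s, hs⟩ := horb x hx
    have : x ∈ T s ⁻¹' O ∩ M := ⟨hs, hx⟩
    rw [hUeq] at this
    exact mem_iUnion.2 ⟨s, this.1⟩)
  choose r n hrn using hpow
  set N := t.sup n with hN
  have hr' : ∀ s ∈ t, (a ^ (N - n s) * r s) * s = a ^ N := by
    intro s hs
    have : n s ≤ N := Finset.le_sup hs
    rw [mul_assoc, hrn, ← pow_add, Nat.sub_add_cancel this]
  refine ⟨t.image fun s => T (a ^ (N - n s) * r s) z, ?_, ?_, ?_⟩
  · rw [Finset.image_nonempty]
    obtain ⟨x, hx⟩ := hne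
    obtain ⟨s, hs, -⟩ := mem_iUnion₂.1 (ht hx)
    exact ⟨s, hs⟩
  · intro q hq
    obtain ⟨s, -, rfl⟩ := Finset.mem_image.1 hq
    exact h.map _ _ hzM
  · intro m hm
    obtain ⟨m', hm', rfl⟩ := hsurj N m hm
    obtain ⟨s, hs, hsU⟩ := mem_iUnion₂.1 (ht hm')
    have h1 : m' ∈ T s ⁻¹' O ∩ M := by
      rw [hUeq]
      exact ⟨hsU, hm'⟩
    refine ⟨_, Finset.mem_image.2 ⟨s, hs, rfl⟩, ?_⟩
    rw [← hr' s hs, h.mul _ _ _ hm']
    refine (h.ne _ _ (h.map s _ hm') _ hzM).trans ?_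
    have := hsmall (T s m') ⟨h1.1, h.map s _ hm'⟩ z ⟨hzO, hzM⟩
    linarith

/-- Dense range. -/
def Good (M : Set W) (T : S → W → W) (j : W → V) (s : S) : Prop :=
  ∀ m ∈ M, ∀ ε > 0, ∃ m' ∈ M, ‖j (T s m') - j m‖ < ε

omit [TopologicalSpace W] [T2Space W] in
lemma Good.mul (hmap : ∀ s, ∀ x ∈ M, T s x ∈ M) (hmul : ∀ s t, ∀ x ∈ M, T (s * t) x = T s (T t x))
    (hne : ∀ s, ∀ x ∈ M, ∀ y ∈ M, ‖j (T s x) - j (T s y)‖ ≤ ‖j x - j y‖)
    {s t : S} (hs : Good M T j s) (ht : Good M T j t) :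
    Good M T j (s * t) := by
  intro m hm ε hε
  obtain ⟨m1, hm1, h1⟩ := hs m hm (ε / 2) (by positivity)
  obtain ⟨m2, hm2, h2⟩ := ht m1 hm1 (ε / 2) (by positivity)
  refine ⟨m2, hm2, ?_⟩
  rw [hmul _ _ _ hm2]
  have h3 := hne s _ (hmap t _ hm2) _ hm1
  have h4 : ‖j (T s (T t m2)) - j m‖ ≤ ‖j (T s (T t m2)) - j (T s m1)‖ + ‖j (T s m1) - j m‖ :=
    norm_sub_le_norm_sub_add_norm_sub _ _ _
  linarith

omit [TopologicalSpace W] [T2Space W] in
lemma good_of_left_inv (hmap : ∀ s, ∀ x ∈ M, T s x ∈ M)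
    (hmul : ∀ s t, ∀ x ∈ M, T (s * t) x = T s (T t x))
    (hne : ∀ s, ∀ x ∈ M, ∀ y ∈ M, ‖j (T s x) - j (T s y)‖ ≤ ‖j x - j y‖)
    (hone : ∀ m ∈ M, T 1 m = m)
    (hnet : ∀ ε > 0, ∃ Q : Finset W, ∀ m ∈ M, ∃ q ∈ Q, ‖j m - j q‖ ≤ ε)
    {a b : S} (hab : a * b = 1) : Good M T j b := by
  intro m hm ε hε
  obtain ⟨Q, hQ⟩ := hnet (ε / 3) (by positivity)
  have h1 : ∀ k : ℕ, ∃ q : Q, ‖j (T (b ^ k) m) - j (q : W)‖ ≤ ε / 3 := by
    intro k
    obtain ⟨q, hq, hq'⟩ := hQ _ (hmap (b ^ k) m hm)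
    exact ⟨⟨q, hq⟩, hq'⟩
  choose q hq using h1
  obtain ⟨k, l, hkl, heq⟩ := Finite.exists_ne_map_eq_of_infinite q
  wlog hlt : k < l generalizing k l with H
  · exact H l k hkl.symm heq.symm (lt_of_le_of_ne (not_lt.1 hlt) hkl.symm)
  have h2 : ‖j (T (b ^ l) m) - j (T (b ^ k) m)‖ ≤ 2 * ε / 3 := by
    have e1 := hq k
    have e2 := hq l
    rw [heq] at e1
    have e3 := norm_sub_le (j (T (b ^ l) m) - j (q l : W)) (j (T (b ^ k) m) - j (q l : W))
    rw [sub_sub_sub_cancel_right] at e3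
    linarith
  have h3 : ∀ x ∈ M, T (a ^ k) (T (b ^ k) x) = x := by
    intro x hx
    rw [← hmul _ _ _ hx, pow_mul_pow_eq_one k hab, hone x hx]
  have hl : b ^ l = b ^ k * (b * b ^ (l - k - 1)) := by
    rw [← pow_succ', ← pow_add]
    congr 1
    omega
  set x := T (b * b ^ (l - k - 1)) m with hx
  have hxM : x ∈ M := hmap _ _ hm
  have h4 : T (b ^ l) m = T (b ^ k) x := by rw [hl, hmul _ _ _ hm]
  rw [h4] at h2
  have h5 := hne (a ^ k) _ (hmap (b ^ k) _ hxM) _ (hmap (b ^ k) _ hm)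
  rw [h3 x hxM, h3 m hm] at h5
  refine ⟨T (b ^ (l - k - 1)) m, hmap _ _ hm, ?_⟩
  rw [← hmul _ _ _ hm]
  have : 2 * ε / 3 < ε := by linarith
  linarith


/-- The abstract fixed point theorem. -/
theorem abstract_fp [Module ℝ V] [AddCommGroup W] [Module ℝ W] (hnorm : ∀ (c : ℝ) (v : V), ‖c • v‖ = |c| * ‖v‖)
    (j : W →ₗ[ℝ] V) (hj : Function.Injective j)
    (hcl : ∀ (y : V) (r : ℝ), IsClosed {x : W | ‖j x - y‖ ≤ r})
    {C : Set W} (hC : IsCompact C) (hne : C.Nonempty) (hconv : Convex ℝ C)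
    (hsep : TopologicalSpace.IsSeparable (j '' C)) {T : S → W → W} (h : Act C T j)
    {a b c : S} (hab : a * b = 1) (hac : a * c = 1)
    (hind : ∀ P : S → Prop, P 1 → (∀ s, P s → P (s * a)) → (∀ s, P s → P (s * b)) →
      (∀ s, P s → P (s * c)) → ∀ s, P s) :
    ∃ x ∈ C, ∀ s, T s x = x := by
  classical
  -- left multiples
  have hpow : ∀ s : S, ∃ (r : S) (n : ℕ), r * s = a ^ n := by
    apply hind
    · exact ⟨1, 0, by simp⟩
    · rintro s ⟨r, n, hr⟩
      exact ⟨r, n + 1, by rw [← mul_assoc, hr, pow_succ]⟩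
    · rintro s ⟨r, n, hr⟩
      rcases n with _ | n
      · exact ⟨a * r, 0, by rw [mul_assoc, ← mul_assoc r, hr, pow_zero, one_mul, hab]⟩
      · exact ⟨r, n, by rw [← mul_assoc, hr, pow_succ, mul_assoc, hab, mul_one]⟩
    · rintro s ⟨r, n, hr⟩
      rcases n with _ | n
      · exact ⟨a * r, 0, by rw [mul_assoc, ← mul_assoc r, hr, pow_zero, one_mul, hac]⟩
      · exact ⟨r, n, by rw [← mul_assoc, hr, pow_succ, mul_assoc, hac, mul_one]⟩
  -- minimal convex set
  obtain ⟨K, hKC, hKne, hK, ⟨hKconv, hKinv⟩, hKmin⟩ := exists_minimal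
    (fun A => Convex ℝ A ∧ Inv T A) (fun c _ hc =>
      ⟨convex_sInter fun A hA => (hc A hA).1, Inv_sInter T c fun A hA => (hc A hA).2⟩)
    hC hne ⟨hconv, h.map⟩
  -- minimal set
  obtain ⟨M, hMK, hMne, hM, hMinv, hMmin⟩ := exists_minimal (fun A => Inv T A)
    (fun c _ hc => Inv_sInter T c hc) hK hKne hKinv
  have hActK : Act K T j := h.mono hKC hKinv
  have hAct : Act M T j := hActK.mono hMK hMinv
  have hone := act_one hAct hM hMne hMmin
  have hsepM : TopologicalSpace.IsSeparable (j '' M) :=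
    hsep.mono (image_mono (hMK.trans hKC))
  have hsurj : ∀ n : ℕ, ∀ m ∈ M, ∃ m' ∈ M, T (a ^ n) m' = m := by
    intro n m hm
    refine ⟨T (b ^ n) m, hAct.map _ _ hm, ?_⟩
    rw [← hAct.mul _ _ _ hm, pow_mul_pow_eq_one n hab, hone m hm]
  have hnet : ∀ ε > 0, ∃ Q : Finset W, Q.Nonempty ∧ (∀ q ∈ Q, q ∈ M) ∧
      ∀ m ∈ M, ∃ q ∈ Q, ‖j m - j q‖ ≤ ε := fun ε hε =>
    net hAct hM hMne hcl hsepM hMmin hsurj hpow hε
  have hnet' : ∀ ε > 0, ∃ Q : Finset W, ∀ m ∈ M, ∃ q ∈ Q, ‖j m - j q‖ ≤ ε := fun ε hε => by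
    obtain ⟨Q, -, -, hQ⟩ := hnet ε hε
    exact ⟨Q, hQ⟩
  have hgood : ∀ s, Good M T j s := by
    have ga : Good M T j a := by
      intro m hm ε hε
      obtain ⟨m', hm', he⟩ := hsurj 1 m hm
      rw [pow_one] at he
      exact ⟨m', hm', by rw [he]; simpa using hε⟩
    have gb : Good M T j b := good_of_left_inv hAct.map hAct.mul hAct.ne hone hnet' hab
    have gc : Good M T j c := good_of_left_inv hAct.map hAct.mul hAct.ne hone hnet' hac
    apply hind
    · intro m hm ε hε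
      exact ⟨m, hm, by rw [hone m hm]; simpa using hε⟩
    · exact fun s hs => hs.mul hAct.map hAct.mul hAct.ne ga
    · exact fun s hs => hs.mul hAct.map hAct.mul hAct.ne gb
    · exact fun s hs => hs.mul hAct.map hAct.mul hAct.ne gc
  -- `M` is a point
  have hsub : ∀ x ∈ M, ∀ y ∈ M, x = y := by
    by_contra hcon
    push Not at hcon
    obtain ⟨x, hx, y, hy, hxy⟩ := hcon
    -- the diameter
    set Dset : Set ℝ := {t | ∃ p ∈ M, ∃ q ∈ M, t = ‖j p - j q‖} with hDset
    have hbdd : BddAbove Dset := by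
      obtain ⟨Q, hQne, hQM, hQ⟩ := hnet 1 one_pos
      set B := ∑ q ∈ Q, ∑ q' ∈ Q, ‖j q - j q'‖ with hB
      refine ⟨2 + B, ?_⟩
      rintro _ ⟨p, hp, p', hp', rfl⟩
      obtain ⟨q, hq, hpq⟩ := hQ p hp
      obtain ⟨q', hq', hpq'⟩ := hQ p' hp'
      have h1 : ‖j q - j q'‖ ≤ B := by
        calc ‖j q - j q'‖ ≤ ∑ q' ∈ Q, ‖j q - j q'‖ :=
              Finset.single_le_sum (f := fun q' => ‖j q - j q'‖) (fun _ _ => norm_nonneg _) hq'
          _ ≤ B := Finset.single_le_sum (f := fun q => ∑ q' ∈ Q, ‖j q - j q'‖)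
              (fun _ _ => Finset.sum_nonneg fun _ _ => norm_nonneg _) hq
      have h2 : ‖j p - j p'‖ ≤ ‖j p - j q‖ + ‖j q - j q'‖ + ‖j p' - j q'‖ := by
        have e1 := norm_sub_le_norm_sub_add_norm_sub (j p) (j q) (j p')
        have e2 := norm_sub_le_norm_sub_add_norm_sub (j q) (j q') (j p')
        rw [norm_sub_rev (j q') (j p')] at e2
        linarith
      linarith
    set d := sSup Dset with hd
    have hdle : ∀ p ∈ M, ∀ q ∈ M, ‖j p - j q‖ ≤ d := fun p hp q hq =>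
      le_csSup hbdd ⟨p, hp, q, hq, rfl⟩
    have hd0 : 0 < d := by
      have h1 : 0 < ‖j x - j y‖ := norm_pos_iff.2 (sub_ne_zero.2 fun he => hxy (hj he))
      exact h1.trans_le (hdle x hx y hy)
    obtain ⟨Q, hQne, hQM, hQ⟩ := hnet (d / 2) (by positivity)
    have hcard : 0 < (Q.card : ℝ) := by exact_mod_cast hQne.card_pos
    set w : ℝ := (Q.card : ℝ)⁻¹ with hw
    have hw0 : 0 < w := by positivity
    have hwQ : w * Q.card = 1 := inv_mul_cancel₀ hcard.ne'
    set u : W := ∑ q ∈ Q, w • q with hu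
    have huK : u ∈ K := by
      apply hKconv.sum_mem (fun _ _ => hw0.le)
      · rw [Finset.sum_const, nsmul_eq_mul, mul_comm]; exact hwQ
      · exact fun q hq => hMK (hQM q hq)
    set r := d - w * (d / 2) with hr
    have hrd : r < d := by
      have : 0 < w * (d / 2) := by positivity
      linarith
    have hur : ∀ m ∈ M, ‖j u - j m‖ ≤ r := by
      intro m hm
      obtain ⟨q0, hq0, hmq0⟩ := hQ m hm
      have e1 : j u - j m = ∑ q ∈ Q, w • (j q - j m) := by
        rw [← Finset.smul_sum, Finset.sum_sub_distrib, Finset.sum_const, hu, map_sum, smul_sub,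
          ← Nat.cast_smul_eq_nsmul ℝ, smul_smul, hwQ, one_smul, Finset.smul_sum]
        simp only [map_smul]
      rw [e1]
      refine (norm_sum_le _ _).trans ?_
      have e2 : ∀ q ∈ Q, ‖w • (j q - j m)‖ ≤ w * (if q = q0 then d / 2 else d) := by
        intro q hq
        rw [hnorm, abs_of_pos hw0]
        apply mul_le_mul_of_nonneg_left _ hw0.le
        split_ifs with hqq
        · rw [hqq, norm_sub_rev]; exact hmq0
        · exact hdle q (hQM q hq) m hm
      refine (Finset.sum_le_sum e2).trans ?_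
      rw [← Finset.mul_sum]
      have e3 : ∑ q ∈ Q, (if q = q0 then d / 2 else d) = Q.card * d - d / 2 := by
        have e4 : ∀ q, (if q = q0 then d / 2 else d) = d - (if q = q0 then d / 2 else 0) := by
          intro q
          split_ifs <;> ring
        simp_rw [e4]
        rw [Finset.sum_sub_distrib, Finset.sum_const, Finset.sum_ite_eq' Q q0, if_pos hq0,
          nsmul_eq_mul]
      rw [e3, mul_sub, ← mul_assoc, hwQ, one_mul]
    -- the smaller set
    have hK0 : {x | x ∈ K ∧ ∀ m ∈ M, ‖j x - j m‖ ≤ r} = K := by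
      apply hKmin
      · exact fun x hx => hx.1
      · exact ⟨u, huK, hur⟩
      · have : {x | x ∈ K ∧ ∀ m ∈ M, ‖j x - j m‖ ≤ r} = K ∩ ⋂ m ∈ M, {x | ‖j x - j m‖ ≤ r} := by
          ext x
          simp
        rw [this]
        exact hK.isClosed.inter (isClosed_biInter fun m _ => hcl (j m) r)
      · constructor
        · rintro p ⟨hp, hp'⟩ q ⟨hq, hq'⟩ s t hs ht hst
          refine ⟨hKconv hp hq hs ht hst, fun m hm => ?_⟩
          have e1 : j (s • p + t • q) - j m = s • (j p - j m) + t • (j q - j m) := by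
            rw [map_add, map_smul, map_smul]
            calc s • j p + t • j q - j m = s • j p + t • j q - (s + t) • j m := by
                  rw [hst, one_smul]
              _ = _ := by module
          rw [e1]
          refine (norm_add_le _ _).trans ?_
          rw [hnorm, hnorm, abs_of_nonneg hs, abs_of_nonneg ht]
          have e2 := mul_le_mul_of_nonneg_left (hp' m hm) hs
          have e3 := mul_le_mul_of_nonneg_left (hq' m hm) ht
          calc s * ‖j p - j m‖ + t * ‖j q - j m‖ ≤ s * r + t * r := add_le_add e2 e3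
            _ = r := by rw [← add_mul, hst, one_mul]
        · rintro s p ⟨hp, hp'⟩
          refine ⟨hKinv s p hp, fun m hm => ?_⟩
          apply le_of_forall_pos_le_add
          intro ε hε
          obtain ⟨m', hm', hmm⟩ := hgood s m hm ε hε
          have e1 := norm_sub_le_norm_sub_add_norm_sub (j (T s p)) (j (T s m')) (j m)
          have e2 := hActK.ne s p hp m' (hMK hm')
          have e3 := hp' m' hm'
          linarith
    have hdr : d ≤ r := by
      apply csSup_le (show Dset.Nonempty from ⟨_, x, hx, y, hy, rfl⟩)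
      rintro _ ⟨p, hp, q, hq, rfl⟩
      have : p ∈ {x | x ∈ K ∧ ∀ m ∈ M, ‖j x - j m‖ ≤ r} := by
        rw [hK0]; exact hMK hp
      exact this.2 q hq
    linarith
  obtain ⟨x, hx⟩ := hMne
  exact ⟨x, hKC (hMK hx), fun s => hsub _ (hMinv s x hx) _ hx⟩

end abstract

/-- The generators. -/
def ga : S2 := PresentedMonoid.of Rel 0
def gb : S2 := PresentedMonoid.of Rel 1
def gc : S2 := PresentedMonoid.of Rel 2

lemma gab : ga * gb = 1 := PresentedMonoid.mk_eq_mk_of_rel Rel.ab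
lemma gac : ga * gc = 1 := PresentedMonoid.mk_eq_mk_of_rel Rel.ac

lemma S2_ind (P : S2 → Prop) (h1 : P 1) (ha : ∀ s, P s → P (s * ga)) (hb : ∀ s, P s → P (s * gb))
    (hc : ∀ s, P s → P (s * gc)) (s : S2) : P s := by
  induction s using PresentedMonoid.inductionOn with
  | h w =>
    induction w using List.reverseRecOn with
    | nil => exact h1
    | append_singleton l x ih =>
      have hx : P (PresentedMonoid.mk Rel l * PresentedMonoid.of Rel x) := by
        fin_cases x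
        · exact ha _ ih
        · exact hb _ ih
        · exact hc _ ih
      exact hx

/-- The partially bicyclic semigroup has the fixed point property `(F_{*s})`. -/
theorem result : FixedPointProperty S2 := by
  classical
  rintro 𝕜 _ E _ _ _ C ⟨hne, hC, hconv, hsep⟩ T ⟨hmul, hnonexp, hcont⟩
  set T' : S2 → WeakDual 𝕜 E → WeakDual 𝕜 E := fun s x =>
    if hx : x ∈ C then (T s ⟨x, hx⟩ : WeakDual 𝕜 E) else x with hT'
  have hT'eq : ∀ s (x : C), T' s x = T s x := by
    intro s x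
    simp only [hT', x.2, dif_pos]
  have hAct : Act C T' (WeakDual.toStrongDual : WeakDual 𝕜 E → StrongDual 𝕜 E) := by
    refine ⟨?_, ?_, ?_, ?_⟩
    · intro s x hx
      rw [hT'eq s ⟨x, hx⟩]
      exact (T s ⟨x, hx⟩).2
    · intro s t x hx
      rw [hT'eq (s * t) ⟨x, hx⟩, hT'eq t ⟨x, hx⟩, hT'eq s, hmul]
    · intro s
      rw [continuousOn_iff_continuous_domRestrict]
      have : C.domRestrict (T' s) = fun x => (T s x : WeakDual 𝕜 E) := by
        funext x
        exact hT'eq s x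
      rw [this]
      exact continuous_subtype_val.comp (hcont s)
    · intro s x hx y hy
      rw [hT'eq s ⟨x, hx⟩, hT'eq s ⟨y, hy⟩]
      exact hnonexp s _ _
  set J : WeakDual 𝕜 E →ₗ[ℝ] StrongDual 𝕜 E :=
    { toFun := WeakDual.toStrongDual
      map_add' := fun x y => map_add _ x y
      map_smul' := fun c x => rfl } with hJ
  obtain ⟨x, hx, hfix⟩ := abstract_fp (V := StrongDual 𝕜 E) (W := WeakDual 𝕜 E)
    (fun c v => by rw [norm_smul, Real.norm_eq_abs]) J
    (fun x y hxy => WeakDual.toStrongDual.injective hxy)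
    (fun y r => by
      have := WeakDual.isClosed_closedBall (𝕜 := 𝕜) (E := E) y r
      have e : {x : WeakDual 𝕜 E | ‖J x - y‖ ≤ r} = WeakDual.toStrongDual ⁻¹' Metric.closedBall y r := by
        ext x
        simp [dist_eq_norm, hJ]
      rw [e]
      exact this) hC hne hconv hsep hAct gab gac S2_ind
  exact ⟨⟨x, hx⟩, fun s => Subtype.ext ((hT'eq s ⟨x, hx⟩).symm.trans (hfix s))⟩

end Pool.Agent.Results.MP_722163_an.BicyclicFixedPoint
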